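import Pool.Agent.H3.JHaf

set_option autoImplicit false

namespace Pool.Agent.Results.MP_33747a_co.NearN

open Finset Filter Topology Pool.Agent.H3.HafRec Pool.Agent.H3.HafBlock Pool.Agent.H3.HafFam

theorem result :
    ∃ N : ℕ, ∀ n ≥ N, ∀ k ≤ n, 500 * (n - k) ≤ n → ∃ B ∈ Psi n, haf k B < haf k (J n) :=
  Pool.Agent.H3.JHaf.joined.2

end Pool.Agent.Results.MP_33747a_co.NearN
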