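import Pool.Agent.H3.JHaf

set_option autoImplicit false

namespace Pool.Agent.Results.MP_33747a_co.TopBound

open Finset Filter Topology Pool.Agent.H3.HafRec Pool.Agent.H3.HafBlock Pool.Agent.H3.HafFam

theorem result :
    ∀ s : ℕ, 0 < s → ∃ B ∈ Psi (2 * s), haf (2 * s) B ≤ s.factorial / (3 * s) ^ s :=
  Pool.Agent.H3.JHaf.joined.1

end Pool.Agent.Results.MP_33747a_co.TopBound
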